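import Pool.Agent.H977.LQ.End

set_option autoImplicit false

/-!
# Every large set of tiny prime ideals reaches almost the whole class group

Let `K = ℚ(√d)` have class number `h`, let `B = (log d)^a` with `a > 1`, `n = log d / log log d`, and
`0 < κ < 1 - 1/a`.  Put

`β = min ((κ + 1/a) / 2, max (κ / (1 - 1/a + κ), κ + 1/a - 1/2))`;

so `β < 1/2`, and `β = κ / (1 - 1/a + κ)` if `a ≥ 2` and `κ ≤ 1/a`.  For every `ε > 0` the following
holds for all but `O(X^(1-δ))` of the squarefree `d ≤ X`, with some `δ > 0`.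

* For some `k ≤ n` and every set `Q` of prime ideals whose norms are different primes up to `B`: if `Q`
  has at least `B^(1-κ)` members, then at least `h / d^(β+ε)` ideal classes are products of `k` different
  members of `Q`.
* For every subgroup `H` of the class group of index greater than `d^(β+ε)`, every coset of `H` contains
  prime ideals of norm `p` for fewer than `B^(1-κ)` primes `p ≤ B`.
* If `h > d^(β+ε)`, then every ideal class contains prime ideals of norm `p` for fewer than `B^(1-κ)`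
  primes `p ≤ B`.  In particular fewer than `B^(1-κ)` primes `p ≤ B` are norms of principal prime ideals.

So the class number is at most `d^(β+ε)` if at least `B^(1-κ)` of the primes up to `B` are norms of
principal prime ideals.
-/

namespace Pool.Agent.Results.MP_321647_nt.LargeSetsOfTinyPrimes

open Finset NumberField
open scoped Classical

/-- The exponent `β` for the exponents `a` and `κ`. -/
noncomputable def beta (a κ : ℝ) : ℝ :=
  min ((κ + 1 / a) / 2) (max (κ / (1 - 1 / a + κ)) (κ + 1 / a - 1 / 2))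

/-- The members of `Q` are prime ideals, and their norms are different primes up to `B`. -/
def TinyPrimes (K : Type) [Field K] [NumberField K] (B : ℝ)
    (Q : Finset (nonZeroDivisors (Ideal (𝓞 K)))) : Prop :=
  (∀ P ∈ Q, (P : Ideal (𝓞 K)).IsPrime ∧ (Ideal.absNorm (P : Ideal (𝓞 K))).Prime ∧
    ((Ideal.absNorm (P : Ideal (𝓞 K)) : ℕ) : ℝ) ≤ B) ∧
  ∀ P ∈ Q, ∀ P' ∈ Q, Ideal.absNorm (P : Ideal (𝓞 K)) = Ideal.absNorm (P' : Ideal (𝓞 K)) → P = P'

/-- The ideal classes that are products of the classes of `k` different members of `Q`. -/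
def Products (K : Type) [Field K] [NumberField K] (Q : Finset (nonZeroDivisors (Ideal (𝓞 K))))
    (k : ℕ) : Set (ClassGroup (𝓞 K)) :=
  {C | ∃ L : Finset (nonZeroDivisors (Ideal (𝓞 K))), L ⊆ Q ∧ L.card = k ∧
    ∏ P ∈ L, ClassGroup.mk0 P = C}

/-- The number of the primes `p ≤ B` that are the norm of a prime ideal whose class is in `A`. -/
noncomputable def primesIn (K : Type) [Field K] [NumberField K] (B : ℝ)
    (A : Set (ClassGroup (𝓞 K))) : ℕ :=
  ((Finset.Icc 1 ⌊B⌋₊).filter (fun p => p.Prime ∧ ∃ P : nonZeroDivisors (Ideal (𝓞 K)),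
    (P : Ideal (𝓞 K)).IsPrime ∧ Ideal.absNorm (P : Ideal (𝓞 K)) = p ∧ ClassGroup.mk0 P ∈ A)).card

/-- The property of the integer `d` in the theorem; `e` is the exponent `β + ε`. -/
def Good (a κ e : ℝ) (d : ℕ) : Prop :=
  ∀ (K : Type) [Field K] [NumberField K], Module.finrank ℚ K = 2 → (∃ x : K, x ^ 2 = (d : K)) →
    (∃ k : ℕ, 1 ≤ k ∧ (k : ℝ) ≤ Real.log d / Real.log (Real.log d) ∧
      ∀ Q : Finset (nonZeroDivisors (Ideal (𝓞 K))), TinyPrimes K ((Real.log d) ^ a) Q →
        ((Real.log d) ^ a) ^ (1 - κ) ≤ Q.card →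
        (Nat.card (ClassGroup (𝓞 K)) : ℝ) ≤ (d : ℝ) ^ e * ((Products K Q k).ncard : ℝ)) ∧
    (∀ (H : Subgroup (ClassGroup (𝓞 K))) (g : ClassGroup (𝓞 K)), (d : ℝ) ^ e < H.index →
      (primesIn K ((Real.log d) ^ a) {C | g⁻¹ * C ∈ H} : ℝ) < ((Real.log d) ^ a) ^ (1 - κ)) ∧
    ((d : ℝ) ^ e < Nat.card (ClassGroup (𝓞 K)) → ∀ C : ClassGroup (𝓞 K),
      (primesIn K ((Real.log d) ^ a) {C} : ℝ) < ((Real.log d) ^ a) ^ (1 - κ))

open Pool.Agent.H977.LQ in
theorem good_of (a κ e : ℝ) (d : ℕ) (h : GoodL a κ e d) : Good a κ e d := by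
  intro K _ _ hK hx
  obtain ⟨k, hk1, hkn, hL⟩ := h K hK hx
  have hd0 : 0 ≤ (d : ℝ) ^ e := Real.rpow_nonneg (Nat.cast_nonneg _) _
  have part2 : ∀ (H : Subgroup (ClassGroup (𝓞 K))) (g : ClassGroup (𝓞 K)), (d : ℝ) ^ e < H.index →
      (primesIn K ((Real.log d) ^ a) {C | g⁻¹ * C ∈ H} : ℝ) < ((Real.log d) ^ a) ^ (1 - κ) := by
    intro H g hH
    by_contra hcon
    push Not at hcon
    unfold primesIn at hcon
    set P0 := (Finset.Icc 1 ⌊(Real.log d) ^ a⌋₊).filter (fun p => p.Prime ∧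
      ∃ P : nonZeroDivisors (Ideal (𝓞 K)), (P : Ideal (𝓞 K)).IsPrime ∧
        Ideal.absNorm (P : Ideal (𝓞 K)) = p ∧ ClassGroup.mk0 P ∈ {C | g⁻¹ * C ∈ H}) with hP0
    have hex : ∀ p : ℕ, ∃ P : nonZeroDivisors (Ideal (𝓞 K)), p ∈ P0 →
        Ideal.absNorm (P : Ideal (𝓞 K)) = p ∧ g⁻¹ * ClassGroup.mk0 P ∈ H := by
      intro p
      by_cases hp : p ∈ P0
      · obtain ⟨-, -, P, -, h2, h3⟩ := Finset.mem_filter.1 hp
        exact ⟨P, fun _ => ⟨h2, h3⟩⟩
      · exact ⟨1, fun h => absurd h hp⟩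
    choose q hq using hex
    have hmain := hL P0 q (fun p hp => by
      obtain ⟨h1, h2, -⟩ := Finset.mem_filter.1 hp
      refine ⟨h2, ?_⟩
      exact (Nat.le_floor_iff' h2.ne_zero).1 (Finset.mem_Icc.1 h1).2)
      (fun p hp => (hq p hp).1) hcon
    have hsub : ∀ C ∈ classes K P0 q k, (g ^ k)⁻¹ * C ∈ H := by
      intro C hC
      obtain ⟨s, hs, rfl⟩ := Finset.mem_image.1 hC
      obtain ⟨hs1, hs2⟩ := Finset.mem_powersetCard.1 hs
      have e1 : (g ^ k)⁻¹ * ∏ p ∈ s, ClassGroup.mk0 (q p) =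
          ∏ p ∈ s, (g⁻¹ * ClassGroup.mk0 (q p)) := by
        rw [Finset.prod_mul_distrib, Finset.prod_const, hs2, inv_pow]
      rw [e1]
      exact Subgroup.prod_mem _ fun p hp => (hq p (hs1 hp)).2
    have hcard : (classes K P0 q k).card ≤ Nat.card H := by
      have h1 : (classes K P0 q k).card ≤ (Finset.univ : Finset H).card := by
        refine Finset.card_le_card_of_injOn
          (fun C => if h : (g ^ k)⁻¹ * C ∈ H then (⟨_, h⟩ : H) else 1) (fun _ _ => by simp) ?_
        intro C hC C' hC' heq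
        simp only [dif_pos (hsub C hC), dif_pos (hsub C' hC')] at heq
        have := congrArg Subtype.val heq
        simpa using this
      rwa [Finset.card_univ, ← Nat.card_eq_fintype_card] at h1
    have h5 : (0 : ℝ) < Nat.card H := by exact_mod_cast Nat.card_pos
    have h6 : (Nat.card (ClassGroup (𝓞 K)) : ℝ) = Nat.card H * H.index := by
      exact_mod_cast (Subgroup.card_mul_index H).symm
    have h7 : (H.index : ℝ) * Nat.card H ≤ (d : ℝ) ^ e * Nat.card H := by
      calc (H.index : ℝ) * Nat.card H = Nat.card (ClassGroup (𝓞 K)) := by rw [h6]; ring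
        _ ≤ (d : ℝ) ^ e * ((classes K P0 q k).card : ℝ) := hmain
        _ ≤ _ := by
          apply mul_le_mul_of_nonneg_left _ hd0
          exact_mod_cast hcard
    exact absurd (le_of_mul_le_mul_right h7 h5) (not_le.2 hH)
  refine ⟨⟨k, hk1, hkn, ?_⟩, part2, ?_⟩
  · intro Q hQ hcard
    set P0 := Q.image (fun P : nonZeroDivisors (Ideal (𝓞 K)) =>
      Ideal.absNorm (P : Ideal (𝓞 K))) with hP0
    have hex : ∀ p : ℕ, ∃ P : nonZeroDivisors (Ideal (𝓞 K)), p ∈ P0 →
        P ∈ Q ∧ Ideal.absNorm (P : Ideal (𝓞 K)) = p := by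
      intro p
      by_cases hp : p ∈ P0
      · obtain ⟨P, h1, h2⟩ := Finset.mem_image.1 hp
        exact ⟨P, fun _ => ⟨h1, h2⟩⟩
      · exact ⟨1, fun h => absurd h hp⟩
    choose q hq using hex
    have hP0card : P0.card = Q.card := by
      apply Finset.card_image_of_injOn
      intro P hP P' hP' heq
      exact hQ.2 P hP P' hP' heq
    have hmain := hL P0 q (fun p hp => by
      obtain ⟨P, h1, h2⟩ := Finset.mem_image.1 hp
      obtain ⟨-, h3, h4⟩ := hQ.1 P h1
      rw [← h2]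
      exact ⟨h3, h4⟩) (fun p hp => (hq p hp).2) (by rw [hP0card]; exact hcard)
    refine hmain.trans (mul_le_mul_of_nonneg_left ?_ hd0)
    have hsub : (classes K P0 q k : Set (ClassGroup (𝓞 K))) ⊆ Products K Q k := by
      intro C hC
      obtain ⟨s, hs, rfl⟩ := Finset.mem_image.1 (Finset.mem_coe.1 hC)
      obtain ⟨hs1, hs2⟩ := Finset.mem_powersetCard.1 hs
      have hinj : ∀ p ∈ s, ∀ p' ∈ s, q p = q p' → p = p' := by
        intro p hp p' hp' heq
        rw [← (hq p (hs1 hp)).2, ← (hq p' (hs1 hp')).2, heq]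
      refine ⟨s.image q, ?_, ?_, ?_⟩
      · intro P hP
        obtain ⟨p, hp, rfl⟩ := Finset.mem_image.1 hP
        exact (hq p (hs1 hp)).1
      · rw [Finset.card_image_of_injOn hinj, hs2]
      · rw [Finset.prod_image hinj]
    have h1 := Set.ncard_le_ncard hsub (Set.toFinite _)
    rw [Set.ncard_coe_finset] at h1
    exact_mod_cast h1
  · intro hh C
    have h1 := part2 ⊥ C (by rw [Subgroup.index_bot]; exact hh)
    have h2 : {C' : ClassGroup (𝓞 K) | C⁻¹ * C' ∈ (⊥ : Subgroup (ClassGroup (𝓞 K)))} = {C} := by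
      ext C'
      rw [Set.mem_ofPred_eq, Subgroup.mem_bot, Set.mem_singleton_iff, inv_mul_eq_one]
      exact eq_comm
    rw [h2] at h1
    exact h1

/-- For all `a > 1`, `0 < κ < 1 - 1/a` and `ε > 0` all but `O(X^(1-δ))` of the squarefree `d ≤ X` have
the property `Good a κ (β + ε) d`, for some `δ > 0`. -/
theorem result : ∀ a κ ε : ℝ, 1 < a → 0 < κ → κ < 1 - 1 / a → 0 < ε → ∃ δ C : ℝ, 0 < δ ∧ 0 < C ∧
    ∀ X : ℕ, (((Finset.Icc 2 X).filter (fun d => Squarefree d ∧
      ¬ Good a κ (beta a κ + ε) d)).card : ℝ) ≤ C * (X : ℝ) ^ (1 - δ) := by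
  intro a κ ε ha hκ hκ1 hε
  obtain ⟨δ, C, hδ, hC, h⟩ := Pool.Agent.H977.LQ.main a κ ε ha hκ.le hκ1 hε
  refine ⟨δ, C, hδ, hC, fun X => le_trans ?_ (h X)⟩
  have hsub : (Finset.Icc 2 X).filter (fun d => Squarefree d ∧ ¬ Good a κ (beta a κ + ε) d) ⊆
      (Finset.Icc 2 X).filter (fun d => Squarefree d ∧
        ¬ Pool.Agent.H977.LQ.GoodL a κ (Pool.Agent.H977.LQ.beta a κ + ε) d) := by
    intro d hd
    rw [Finset.mem_filter] at hd ⊢
    exact ⟨hd.1, hd.2.1, fun hg => hd.2.2 (good_of a κ _ d hg)⟩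
  exact_mod_cast Finset.card_le_card hsub

end Pool.Agent.Results.MP_321647_nt.LargeSetsOfTinyPrimes
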