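import Pool.Agent.H977.CS.Walk

set_option autoImplicit false

/-!
# Random products of tiny prime ideals and the class number

Let `K = ℚ(√d)` have class number `h`, let `B = (log d)^a` with `a > 1`, and let `κ > 0` with
`2 κ < 1 - 1/a`.  Put `γ = max (κ / (1 - 1/a)) (2 κ + 1/a - 1/2)`; so `γ < 1/2`, and
`γ = κ / (1 - 1/a)` if `a ≥ 2` and `κ` is small.  Let `ε > 0`.  For all but `O(X^(1-δ))` of the squarefree
`d ≤ X`, with some `δ > 0`, the following holds for every set `Q` of prime ideals whose norm is a prime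
up to `B` and for every `k`.

* Every ideal class contains at most `(d^(γ+ε) / h) |Q|^k + B^((1-κ) k)` of the products
  `P_1 P_2 ⋯ P_k` with `P_i ∈ Q`, counted with multiplicity (that is, of the `k`-tuples).
* Let `ρ` be the probability that two random products of `k` members of `Q` are in the same ideal
  class.  Then `1 ≤ h ρ ≤ d^(γ+ε) + h (B^(1-κ) / |Q|)^(2k)`.

If `|Q| ≥ B^(1-κ/2)` and `k ≥ 2 log d / (κ log B)`, then `(B^(1-κ) / |Q|)^k ≤ 1 / d`.  So for such a `k`
the class number is `1/ρ` up to a factor `d^(γ+ε) + 1`, and if a proportion `π > 0` of the products is in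
the principal class, then `h ≤ (d^(γ+ε) + h / d) / π`.
-/

namespace Pool.Agent.Results.MP_321647_nt.RandomProductsOfTinyPrimes

open Finset NumberField
open scoped Classical

/-- The exponent `γ` for the exponents `a` and `κ`. -/
noncomputable def gamma (a κ : ℝ) : ℝ := max (κ / (1 - 1 / a)) (2 * κ + 1 / a - 1 / 2)

/-- The members of `Q` are prime ideals, and their norms are primes up to `B`. -/
def Tiny (K : Type) [Field K] [NumberField K] (B : ℝ)
    (Q : Finset (nonZeroDivisors (Ideal (𝓞 K)))) : Prop :=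
  ∀ P ∈ Q, (P : Ideal (𝓞 K)).IsPrime ∧ (Ideal.absNorm (P : Ideal (𝓞 K))).Prime ∧
    ((Ideal.absNorm (P : Ideal (𝓞 K)) : ℕ) : ℝ) ≤ B

/-- The number of `k`-tuples of members of `Q` with product in the ideal class `C`. -/
noncomputable def tuples (K : Type) [Field K] [NumberField K]
    (Q : Finset (nonZeroDivisors (Ideal (𝓞 K)))) (k : ℕ) (C : ClassGroup (𝓞 K)) : ℕ :=
  ((Fintype.piFinset (fun _ : Fin k => Q)).filter
    (fun v => ClassGroup.mk0 (∏ i, v i) = C)).card

/-- The number of pairs of `k`-tuples of members of `Q` with products in the same ideal class. -/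
noncomputable def collisions (K : Type) [Field K] [NumberField K]
    (Q : Finset (nonZeroDivisors (Ideal (𝓞 K)))) (k : ℕ) : ℕ :=
  (((Fintype.piFinset (fun _ : Fin k => Q)) ×ˢ (Fintype.piFinset (fun _ : Fin k => Q))).filter
    (fun x => ClassGroup.mk0 (∏ i, x.1 i) = ClassGroup.mk0 (∏ i, x.2 i))).card

/-- The property of the integer `d` in the theorem; `e` is the exponent `γ + ε`. -/
def Good (a κ e : ℝ) (d : ℕ) : Prop :=
  ∀ (K : Type) [Field K] [NumberField K], Module.finrank ℚ K = 2 → (∃ x : K, x ^ 2 = (d : K)) →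
    ∀ (Q : Finset (nonZeroDivisors (Ideal (𝓞 K)))) (k : ℕ), Tiny K ((Real.log d) ^ a) Q →
      (∀ C : ClassGroup (𝓞 K), (tuples K Q k C : ℝ) ≤
        (d : ℝ) ^ e / Nat.card (ClassGroup (𝓞 K)) * (Q.card : ℝ) ^ k +
          (((Real.log d) ^ a) ^ (1 - κ)) ^ k) ∧
      (Q.card : ℝ) ^ (2 * k) ≤ Nat.card (ClassGroup (𝓞 K)) * (collisions K Q k : ℝ) ∧
      Nat.card (ClassGroup (𝓞 K)) * (collisions K Q k : ℝ) ≤ (d : ℝ) ^ e * (Q.card : ℝ) ^ (2 * k) +
        Nat.card (ClassGroup (𝓞 K)) * (((Real.log d) ^ a) ^ (1 - κ)) ^ (2 * k)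

section

open Pool.Agent.H977.CS

theorem sum_Q {K : Type} [Field K] [NumberField K] (B : ℝ)
    (Q : Finset (nonZeroDivisors (Ideal (𝓞 K)))) (hQ : Tiny K B Q) (χ : Chr K) :
    ∑ p ∈ PB B, lam (fun I => if I ∈ Q then 1 else 0) χ p = SQ Q χ := by
  unfold SQ
  rw [← Finset.sum_fiberwise_of_maps_to (s := Q) (t := PB B)
    (g := fun P => Ideal.absNorm (P : Ideal (𝓞 K)))]
  · refine Finset.sum_congr rfl fun p _ => ?_
    unfold lam
    rw [Finset.sum_filter]
    have h1 : ∀ I ∈ pr K p, (if I ∈ Q then (1 : ℂ) else 0) *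
        χ (Additive.ofMul (ClassGroup.mk0 I)) =
        if I ∈ Q then χ (Additive.ofMul (ClassGroup.mk0 I)) else 0 := by
      intro I _
      split_ifs
      · rw [one_mul]
      · rw [zero_mul]
    rw [Finset.sum_congr rfl h1, ← Finset.sum_filter, ← Finset.sum_filter]
    refine Finset.sum_congr ?_ fun _ _ => rfl
    ext I
    rw [Finset.mem_filter, Finset.mem_filter, mem_pr]
    exact and_comm
  · intro P hP
    obtain ⟨-, h2, h3⟩ := hQ P hP
    unfold PB
    rw [Finset.mem_filter, Finset.mem_Icc]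
    exact ⟨⟨h2.one_lt.le, (Nat.le_floor_iff' h2.ne_zero).2 h3⟩, h2⟩

theorem good_of (a κ e : ℝ) (d : ℕ) (hd : 1 < d) (h : GoodC a κ e d) : Good a κ e d := by
  intro K _ _ hK hx Q k hQ
  have hlog : 0 < Real.log d := Real.log_pos (by exact_mod_cast hd)
  set B : ℝ := (Real.log d) ^ a with hB
  have hB0 : 0 < B := Real.rpow_pos_of_pos hlog a
  have h1 := h K hK hx (fun I => if I ∈ Q then 1 else 0) (by
    intro I
    split_ifs <;> simp)
  have h2 : (((Finset.univ : Finset (Chr K)).filter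
      (fun χ => B ^ (1 - κ) ≤ ‖SQ Q χ‖)).card : ℝ) ≤ (d : ℝ) ^ e := by
    refine le_trans (le_of_eq ?_) h1
    congr 2
    apply Finset.filter_congr
    intro χ _
    rw [← sum_Q B Q hQ χ]
  have hE : 0 ≤ B ^ (1 - κ) := by positivity
  have e1 : ∀ C, tuples K Q k C = (tup K Q k C).card := by
    intro C
    unfold tuples tup
    congr 1
    apply Finset.filter_congr
    intro v _
    rw [map_prod]
  have e2 : collisions K Q k = (coll K Q k).card := by
    unfold collisions coll
    congr 1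
    apply Finset.filter_congr
    intro v _
    rw [map_prod, map_prod]
  refine ⟨fun C => ?_, ?_⟩
  · rw [e1]
    exact tup_le Q _ _ hE h2 k C
  · rw [e2]
    exact coll_le Q _ _ hE h2 k

end

/-- For all `a > 1`, `κ > 0` with `2 κ < 1 - 1/a` and `ε > 0` all but `O(X^(1-δ))` of the squarefree
`d ≤ X` have the property `Good a κ (γ + ε) d`, for some `δ > 0`. -/
theorem result : ∀ a κ ε : ℝ, 1 < a → 0 < κ → 2 * κ < 1 - 1 / a → 0 < ε →
    ∃ δ C : ℝ, 0 < δ ∧ 0 < C ∧
    ∀ X : ℕ, (((Finset.Icc 2 X).filter (fun d => Squarefree d ∧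
      ¬ Good a κ (gamma a κ + ε) d)).card : ℝ) ≤ C * (X : ℝ) ^ (1 - δ) := by
  intro a κ ε ha hκ hκ2 hε
  obtain ⟨δ, C, hδ, hC, h⟩ := Pool.Agent.H977.CS.main a κ ε ha hκ.le hκ2 hε
  refine ⟨δ, C, hδ, hC, fun X => le_trans ?_ (h X)⟩
  have hsub : (Finset.Icc 2 X).filter (fun d => Squarefree d ∧ ¬ Good a κ (gamma a κ + ε) d) ⊆
      (Finset.Icc 2 X).filter (fun d => Squarefree d ∧
        ¬ Pool.Agent.H977.CS.GoodC a κ (Pool.Agent.H977.CS.gam a κ + ε) d) := by
    intro d hd
    rw [Finset.mem_filter] at hd ⊢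
    exact ⟨hd.1, hd.2.1, fun hg => hd.2.2
      (good_of a κ _ d (Finset.mem_Icc.1 hd.1).1 hg)⟩
  exact_mod_cast Finset.card_le_card hsub

end Pool.Agent.Results.MP_321647_nt.RandomProductsOfTinyPrimes
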