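import Pool.Agent.H977.RB.Der

set_option autoImplicit false

/-!
# The class group without a few of the small primes

Let `K = ℚ(√d)`, `B = (log d)^a` with `a > 2`, `n = log d / log log d` and `T = (log d)^(a-1) / 1000`.
For 100% of the squarefree integers `d`, for 100% of the primes, and for 100% of the radicands which
genus theory allows for unique factorisation (primes, `2 p`, and `p q`, with primes `p`, `q` that are
3 mod 4), the following holds.

* However one deletes at most `T` numbers from the primes up to `B`, every ideal class is a product of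
  at most `n` classes of prime ideals whose norms are primes up to `B` that are not deleted.
* For every proper subgroup `H` of the class group there are more than `T` primes `p ≤ B` that are
  norms of prime ideals whose class is not in `H`.
* If the ring of integers does not have unique factorisation, then more than `T` primes `p ≤ B` are
  norms of non-principal prime ideals.  So unique factorisation can be read off from the primes up to
  `B` that remain after the deletion of any `T` primes.
* Every ideal class has `(log d)^(a-2) log log d / 1000` or more representations as a product of at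
  most `n` classes of prime ideals of prime norm up to `B`, such that different representations have
  no norm in common.
-/

namespace Pool.Agent.Results.MP_321647_nt.WithoutFewPrimes

open Finset Filter NumberField
open scoped Classical

/-- `L` is a list of at most `n` prime ideals of `K`; their norms are primes up to `B` that are not in
`E`; and the product of their classes is `C`. -/
def Rep (K : Type) [Field K] [NumberField K] (B n : ℝ) (E : Finset ℕ)
    (C : ClassGroup (𝓞 K)) (L : Multiset (nonZeroDivisors (Ideal (𝓞 K)))) : Prop :=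
  (∀ P ∈ L, (P : Ideal (𝓞 K)).IsPrime ∧ (Ideal.absNorm (P : Ideal (𝓞 K))).Prime ∧
      ((Ideal.absNorm (P : Ideal (𝓞 K)) : ℕ) : ℝ) ≤ B ∧
      Ideal.absNorm (P : Ideal (𝓞 K)) ∉ E) ∧
    (L.card : ℝ) ≤ n ∧ (L.map (fun P => ClassGroup.mk0 P)).prod = C

/-- The number of the primes up to `B` that are the norm of a prime ideal of `K` whose class is not
in `H`. -/
noncomputable def outside (K : Type) [Field K] [NumberField K] (B : ℝ)
    (H : Subgroup (ClassGroup (𝓞 K))) : ℕ :=
  ((Finset.Icc 1 ⌊B⌋₊).filter (fun p => p.Prime ∧ ∃ P : nonZeroDivisors (Ideal (𝓞 K)),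
    (P : Ideal (𝓞 K)).IsPrime ∧ Ideal.absNorm (P : Ideal (𝓞 K)) = p ∧
      ClassGroup.mk0 P ∉ H)).card

/-- The number of the primes up to `B` that are the norm of a non-principal prime ideal of `K`. -/
noncomputable def nonPrincipal (K : Type) [Field K] [NumberField K] (B : ℝ) : ℕ :=
  ((Finset.Icc 1 ⌊B⌋₊).filter (fun p => p.Prime ∧ ∃ P : Ideal (𝓞 K),
    P.IsPrime ∧ Ideal.absNorm P = p ∧ ¬ P.IsPrincipal)).card

/-- The property of the field `K` in the theorem. -/
def Robust (K : Type) [Field K] [NumberField K] (B n T m : ℝ) : Prop :=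
  (∀ E : Finset ℕ, (E.card : ℝ) ≤ T → ∀ C : ClassGroup (𝓞 K), ∃ L, Rep K B n E C L) ∧
  (∀ H : Subgroup (ClassGroup (𝓞 K)), H ≠ ⊤ → T < outside K B H) ∧
  (¬ UniqueFactorizationMonoid (𝓞 K) → T < nonPrincipal K B) ∧
  (∀ C : ClassGroup (𝓞 K), ∃ N : ℕ, m ≤ N ∧
    ∃ L : Fin N → Multiset (nonZeroDivisors (Ideal (𝓞 K))), (∀ i, Rep K B n ∅ C (L i)) ∧
      ∀ i j, i ≠ j → ∀ P ∈ L i, ∀ Q ∈ L j,
        Ideal.absNorm (P : Ideal (𝓞 K)) ≠ Ideal.absNorm (Q : Ideal (𝓞 K)))

/-- The property of the integer `d` in the theorem. -/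
def Good (a : ℝ) (d : ℕ) : Prop :=
  ∀ (K : Type) [Field K] [NumberField K], Module.finrank ℚ K = 2 → (∃ x : K, x ^ 2 = (d : K)) →
    Robust K ((Real.log d) ^ a) (Real.log d / Real.log (Real.log d))
      ((Real.log d) ^ (a - 1) / 1000) ((Real.log d) ^ (a - 2) * Real.log (Real.log d) / 1000)

/-- `d = 2 p` with a prime `p ≡ 3 mod 4`. -/
def TwicePrime (d : ℕ) : Prop := ∃ p : ℕ, p.Prime ∧ p % 4 = 3 ∧ d = 2 * p

/-- `d = p q` with two different primes `p ≡ q ≡ 3 mod 4`. -/
def PrimePair (d : ℕ) : Prop :=
  ∃ p q : ℕ, p.Prime ∧ q.Prime ∧ p < q ∧ p % 4 = 3 ∧ q % 4 = 3 ∧ d = p * q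

/-- The radicands that can have unique factorisation. -/
def Candidate (d : ℕ) : Prop := d.Prime ∨ TwicePrime d ∨ PrimePair d

/-- The proportion of the numbers up to `X` with the property `F` that do not have the property `G`
tends to zero as `X` tends to infinity. -/
def AlmostAll (F G : ℕ → Prop) : Prop :=
  Tendsto (fun X : ℕ => (((Finset.Icc 1 X).filter (fun d => F d ∧ ¬ G d)).card : ℝ) /
    (((Finset.Icc 1 X).filter F).card : ℝ)) atTop (nhds 0)

open Pool.Agent.H977.RB in
theorem good_of (a : ℝ) (d : ℕ) (h : GA a d) : Good a d := by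
  intro K _ _ hK hx
  have h0 : ∀ E : Finset ℕ, 1000 * (E.card : ℝ) ≤ (Real.log d) ^ (a - 1) →
      ∀ C : ClassGroup (𝓞 K), ∃ L,
        RepAvoid K ((Real.log d) ^ a) (Real.log d / Real.log (Real.log d)) E C L := h K hK hx
  have hlog : 0 ≤ Real.log d := Real.log_natCast_nonneg d
  have hT : 0 ≤ (Real.log d) ^ (a - 1) := by positivity
  have h1 : ∀ H : Subgroup (ClassGroup (𝓞 K)), H ≠ ⊤ →
      (Real.log d) ^ (a - 1) / 1000 < outside K ((Real.log d) ^ a) H := by
    intro H hH
    have h2 := many_outside h0 H hH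
    rw [div_lt_iff₀ (by norm_num)]
    unfold outside
    linarith
  have hn : 0 ≤ Real.log d / Real.log (Real.log d) := by
    obtain ⟨L, hL⟩ := h0 ∅ (by simpa using hT) 1
    have h2 : (0 : ℝ) ≤ (L.card : ℝ) := by positivity
    exact h2.trans hL.2.1
  refine ⟨fun E hE C => h0 E (by linarith) C, h1, ?_, ?_⟩
  · intro hU
    have hbot : (⊥ : Subgroup (ClassGroup (𝓞 K))) ≠ ⊤ := by
      intro hbt
      apply hU
      have hcard : Fintype.card (ClassGroup (𝓞 K)) = 1 := by
        rw [Fintype.card_eq_one_iff]
        refine ⟨1, fun C => ?_⟩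
        have : C ∈ (⊥ : Subgroup (ClassGroup (𝓞 K))) := by rw [hbt]; trivial
        exact Subgroup.mem_bot.1 this
      have : IsPrincipalIdealRing (𝓞 K) := by
        rw [← card_classGroup_eq_one_iff]
        exact hcard
      infer_instance
    refine lt_of_lt_of_le (h1 ⊥ hbot) ?_
    unfold outside nonPrincipal
    have hsub : (Finset.Icc 1 ⌊(Real.log d) ^ a⌋₊).filter (fun p => p.Prime ∧
        ∃ P : nonZeroDivisors (Ideal (𝓞 K)), (P : Ideal (𝓞 K)).IsPrime ∧
          Ideal.absNorm (P : Ideal (𝓞 K)) = p ∧
            ClassGroup.mk0 P ∉ (⊥ : Subgroup (ClassGroup (𝓞 K)))) ⊆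
        (Finset.Icc 1 ⌊(Real.log d) ^ a⌋₊).filter (fun p => p.Prime ∧ ∃ P : Ideal (𝓞 K),
          P.IsPrime ∧ Ideal.absNorm P = p ∧ ¬ P.IsPrincipal) := by
      intro p hp
      rw [Finset.mem_filter] at hp ⊢
      obtain ⟨h3, h4, P, h5, h6, h7⟩ := hp
      refine ⟨h3, h4, P, h5, h6, fun h8 => h7 ?_⟩
      rw [Subgroup.mem_bot, ClassGroup.mk0_eq_one_iff]
      exact h8
    exact_mod_cast Finset.card_le_card hsub
  · intro C
    rcases hn.eq_or_lt with hn0 | hn0
    · -- degenerate case
      obtain ⟨m, hm⟩ := exists_nat_ge ((Real.log d) ^ (a - 2) * Real.log (Real.log d) / 1000)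
      obtain ⟨L, hL1, hL2⟩ := many_disjoint hn h0 C m (by rw [← hn0]; simpa using hT)
      refine ⟨m + 1, hm.trans (by push_cast; linarith), L, hL1, hL2⟩
    · have hll : 0 < Real.log (Real.log d) := by
        rcases lt_or_ge 0 (Real.log (Real.log d)) with h2 | h2
        · exact h2
        · exact absurd (div_nonpos_of_nonneg_of_nonpos hlog h2) (not_le.2 hn0)
      have hl : 0 < Real.log d := by
        rcases hlog.eq_or_lt with h2 | h2
        · rw [← h2] at hn0
          simp at hn0
        · exact h2
      have e1 : (Real.log d) ^ (a - 1) = (Real.log d) ^ (a - 2) * Real.log d := by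
        rw [← Real.rpow_add_one hl.ne']
        congr 1
        ring
      have hpos : 0 ≤ (Real.log d) ^ (a - 2) * Real.log (Real.log d) / 1000 := by positivity
      have hfl := Nat.floor_le hpos
      have hfl2 := Nat.lt_floor_add_one ((Real.log d) ^ (a - 2) * Real.log (Real.log d) / 1000)
      obtain ⟨L, hL1, hL2⟩ := many_disjoint hn h0 C
        ⌊(Real.log d) ^ (a - 2) * Real.log (Real.log d) / 1000⌋₊ (by
          calc 1000 * ((⌊(Real.log d) ^ (a - 2) * Real.log (Real.log d) / 1000⌋₊ : ℝ) *
                (Real.log d / Real.log (Real.log d))) ≤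
              1000 * (((Real.log d) ^ (a - 2) * Real.log (Real.log d) / 1000) *
                (Real.log d / Real.log (Real.log d))) := by gcongr
            _ = (Real.log d) ^ (a - 1) := by
              rw [e1]
              field_simp)
      refine ⟨_, ?_, L, hL1, hL2⟩
      push_cast
      exact hfl2.le

theorem almost (F : ℕ → Prop) (a : ℝ) (ha : 2 < a)
    (h : Tendsto (fun X : ℕ => (((Finset.Ioc 0 X).filter
      (fun D => F D ∧ ¬ Pool.Agent.H977.RB.GA a D)).card : ℝ) /
      (((Finset.Ioc 0 X).filter F).card : ℝ)) atTop (nhds 0)) : AlmostAll F (Good a) := by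
  unfold AlmostAll
  refine squeeze_zero (fun X => by positivity) (fun X => ?_) h
  have e1 : Finset.Ioc 0 X = Finset.Icc 1 X := by
    ext d
    rw [mem_Ioc, mem_Icc]
    omega
  rw [e1]
  refine div_le_div_of_nonneg_right ?_ (by positivity)
  have hsub : (Finset.Icc 1 X).filter (fun d => F d ∧ ¬ Good a d) ⊆
      (Finset.Icc 1 X).filter (fun D => F D ∧ ¬ Pool.Agent.H977.RB.GA a D) := by
    intro d hd
    rw [mem_filter] at hd ⊢
    exact ⟨hd.1, hd.2.1, fun hg => hd.2.2 (good_of a d hg)⟩
  exact_mod_cast Finset.card_le_card hsub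

/-- The theorem, for 100% of the squarefree integers and for 100% of the members of four thin
families. -/
theorem result :
    ∀ a : ℝ, 2 < a →
      Tendsto (fun X : ℕ => (((Finset.Icc 2 X).filter
        (fun d => Squarefree d ∧ ¬ Good a d)).card : ℝ) / X) atTop (nhds 0) ∧
      AlmostAll Nat.Prime (Good a) ∧ AlmostAll Candidate (Good a) ∧ AlmostAll PrimePair (Good a) ∧
        AlmostAll TwicePrime (Good a) := by
  intro a ha
  refine ⟨?_, almost _ a ha ?_, almost _ a ha ?_, almost _ a ha ?_, almost _ a ha ?_⟩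
  · refine squeeze_zero (fun X => by positivity) (fun X => ?_) (Pool.Agent.H977.RB.all_lim a ha)
    refine div_le_div_of_nonneg_right ?_ (by positivity)
    have hsub : (Finset.Icc 2 X).filter (fun d => Squarefree d ∧ ¬ Good a d) ⊆
        (Finset.Icc 2 X).filter (fun D => Squarefree D ∧ ¬ Pool.Agent.H977.RB.GA a D) := by
      intro d hd
      rw [mem_filter] at hd ⊢
      exact ⟨hd.1, hd.2.1, fun hg => hd.2.2 (good_of a d hg)⟩
    exact_mod_cast Finset.card_le_card hsub
  · convert Pool.Agent.H977.RB.prime_lim a ha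
  · have key := Pool.Agent.Y892.UF.union_lim Nat.Prime Pool.Agent.Y892.UF.Two
      Pool.Agent.Y892.UF.Semi (fun D => ¬ Pool.Agent.H977.RB.GA a D)
      (by convert Pool.Agent.H977.RB.prime_lim a ha)
      (by convert Pool.Agent.H977.RB.two_lim a ha)
      (by convert Pool.Agent.H977.RB.semi_lim a ha)
    convert key
    all_goals rfl
  · exact Pool.Agent.H977.RB.semi_lim a ha
  · exact Pool.Agent.H977.RB.two_lim a ha

end Pool.Agent.Results.MP_321647_nt.WithoutFewPrimes
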